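import Pool.Agent.W541.DL.Stm

/-!
# DL-STE: the extended statistic is measurable and extends the real one
-/

namespace Pool.Agent.W705.DL.STE

open MeasureTheory ProbabilityTheory Filter Topology
open Pool.Agent.W541.DL

theorem clE_meas (A : ℝ) : Measurable (clE A) := by
  unfold clE
  exact measurable_ereal_toReal.comp (measurable_const.max (measurable_const.min measurable_id))

theorem clE_coe (A v : ℝ) : clE A ((v : ℝ) : EReal) = cl A v := by
  unfold clE cl
  have hmono : Monotone (fun x : ℝ => (x : EReal)) := fun a b h => EReal.coe_le_coe_iff.2 h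
  have h1 : ((min A v : ℝ) : EReal) = min (A : EReal) (v : EReal) := hmono.map_min
  have h2 : ((max (-A) (min A v) : ℝ) : EReal) = max ((-A : ℝ) : EReal) ((min A v : ℝ) : EReal) :=
    hmono.map_max
  rw [← h1, ← h2, EReal.toReal_coe]

theorem valE_meas (x s y t : ℝ) : Measurable (fun F : R4 → EReal => valE F x s y t) := by
  unfold valE
  split_ifs with h
  · exact measurable_pi_apply _
  · exact measurable_const

theorem valE_coe (f : R4 → ℝ) (x s y t : ℝ) :
    valE (fun p => ((f p : ℝ) : EReal)) x s y t = ((val f x s y t : ℝ) : EReal) := by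
  unfold valE val
  split_ifs with h
  · rfl
  · simp

theorem cl_scale (A v c : ℝ) (hc : 0 < c) : c * cl (A / c) v = cl A (c * v) := by
  unfold cl
  rw [mul_max_of_nonneg _ _ hc.le, mul_min_of_nonneg _ _ hc.le, mul_neg,
    mul_div_cancel₀ _ hc.ne']

theorem main : S_STE := by
  intro A x0 t0 ρ m _ hm
  refine ⟨?_, fun f => ?_⟩
  · unfold statE
    refine Finset.measurable_sum _ fun j _ => Finset.measurable_sum _ fun i _ => ?_
    exact ((clE_meas _).comp (valE_meas _ _ _ _)).const_mul _
  · unfold statE stat cellv
    refine Finset.sum_congr rfl fun j _ => Finset.sum_congr rfl fun i _ => ?_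
    have hm0 : (0 : ℝ) < (m : ℝ) ^ 3 := by
      have : (0 : ℝ) < m := by exact_mod_cast hm
      positivity
    rw [valE_coe, clE_coe, cl_scale _ _ _ hm0]

end Pool.Agent.W705.DL.STE
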